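import Pool.Agent.H13.MA.Stmts

/-!
COV: countable sets of the extension are covered by countable sets of the ground model.
-/

set_option linter.unusedVariables false
set_option synthInstance.maxSize 100000

namespace SW

/-- the second variable numbers its domain by members of the first injectively -/
def QCov (N : Type) [SetStr N] (v : Fin 2 → N) : Prop :=
  ∀ y y' n, E n (v 0) → PairIn y n (v 1) → PairIn y' n (v 1) → y = y'

instance : UDf QCov := by unfold QCov; infer_instance

/-- COV -/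
theorem ma_cov (h1 : CBTStmt) (h2 : ACFStmt) : COVStmt := by
  intro M _ _ _ w I G hw hccc hG _ X a hcb haX
  have hC := h1 M
  let F := PF w I
  have hs : FSFacts F := semF F
  have he := embF hG
  have ht := traF hG
  have hP : F.P = PP w I := rfl
  obtain ⟨g, hg1, hg2⟩ := hcb
  -- the restriction of the numbering to `a`
  obtain ⟨f, hf⟩ : ∃ f : Ext F G, ∀ y n, E (opair y n) f ↔ E (opair y n) g ∧ E y a := by
    refine ⟨sep g (fun z => ∃ y n : Ext F G, z = opair y n ∧ E y a), fun y n => ?_⟩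
    rw [mem_sep' inferInstance]
    constructor
    · rintro ⟨h3, y', n', h4, h5⟩
      rw [opair_inj] at h4
      obtain ⟨rfl, rfl⟩ := h4
      exact ⟨h3, h5⟩
    · rintro ⟨h3, h4⟩
      exact ⟨h3, y, n, rfl, h4⟩
  obtain ⟨f, rfl⟩ := Quot.exists_rep f
  change ∀ y n, E (opair y n) (mk F G f) ↔ E (opair y n) g ∧ E y a at hf
  have h3 : QCov (Ext F G) (fun i => mk F G (![chk F om, f] i)) := by
    intro y y' n hn hy hy'
    have hn' : E n (emb F G om) := hn
    rw [ht.om] at hn'
    have hy1 := (hf _ _).1 (pairIn_iff.1 hy)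
    have hy2 := (hf _ _).1 (pairIn_iff.1 hy')
    exact hg2 y y' n hy1.2 hy2.2 hn' hy1.1 hy2.1
  obtain ⟨p, hpG, hp⟩ := (hs.truth QCov G hG ![chk F om, f]).1 h3
  have hpP : E p F.P := hG.sub p hpG
  have hFP := FP_df F hs
  have _ : ∀ {n : ℕ} {t s u : (Fin n → M) → M} [DfT t] [DfT s] [DfT u],
      Df (fun v => FP F (t v) (chk F (s v)) (chk F (u v)) f) := fun {n t s u} _ _ _ =>
    Df.comp4 (R := fun q z c a => FP F q z c a) hFP inferInstance inferInstance inferInstance
      inferInstance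
  -- conditions above `p` forcing `(y, n) ∈ f`
  let R : M → M → M → Prop := fun y n q =>
    E q F.P ∧ Sub p q ∧ FP F q (chk F y) (chk F n) f
  have _ : ∀ {n : ℕ} {t s u : (Fin n → M) → M} [DfT t] [DfT s] [DfT u],
      Df (fun v => R (t v) (s v) (u v)) := by
    intro n t s u _ _ _
    simp only [R]
    infer_instance
  have hR : ∀ y y' n q q' r, E n om → R y n q → R y' n q' → E r F.P → Sub q r → Sub q' r →
      y = y' := by
    rintro y y' n q q' r hn ⟨hq, hpq, hqf⟩ ⟨hq', hpq', hqf'⟩ hr hqr hqr'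
    obtain ⟨G', hG', hrG'⟩ := hs.ex r hr
    have he' := embF hG'
    have h2 := hG'.up r q hrG' hq hqr
    have h3 := hG'.up r q' hrG' hq' hqr'
    have h4 := hG'.up r p hrG' hpP (hpq.trans hqr)
    have h5 : QCov (Ext F G') (fun i => mk F G' (![chk F om, f] i)) := hp G' hG' h4
    have h6 := h5 (emb F G' y) (emb F G' y') (emb F G' n) ((he'.mem _ _).2 hn)
      (hqf.pair hG' h2) (hqf'.pair hG' h3)
    exact (he'.inj _ _).1 h6
  obtain ⟨ch, hch⟩ := h2 M (PP w I)
  -- the chosen condition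
  let q : M → M → M := fun n y => app ch (sep (PP w I) (fun q : M => R y n q))
  have _ : ∀ {n : ℕ} {t s : (Fin n → M) → M} [DfT t] [DfT s],
      DfT (fun v => q (t v) (s v)) := by
    intro n t s _ _
    simp only [q]
    infer_instance
  have hq : ∀ n y, (∃ r, R y n r) → R y n (q n y) := by
    rintro n y ⟨r, hr⟩
    have h4 := hch (sep (PP w I) (fun q : M => R y n q)) (fun z hz => by
      rw [mem_sep' inferInstance] at hz
      exact hz.1) ⟨r, by rw [mem_sep' inferInstance]; exact ⟨hr.1, hr⟩⟩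
    rw [mem_sep' inferInstance] at h4
    exact h4.2
  -- the sets `A n`
  let A : M → M := fun n => sep X (fun y => ∃ r : M, R y n r)
  have hAdf : Fn1 (fun n : M => A n) := by
    simp only [A]
    infer_instance
  have hA : ∀ n y, E y (A n) ↔ E y X ∧ ∃ r, R y n r := fun n y => mem_sep' inferInstance
  have hAc : ∀ n, E n om → Cb (A n) := by
    intro n hn
    have h5 : Cb (img (A n) (fun y => q n y)) := by
      refine hccc _ ⟨fun z hz => ?_, fun z z' hz hz' hne => ?_⟩
      · rw [mem_img' inferInstance] at hz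
        obtain ⟨y, hy, rfl⟩ := hz
        exact (hq n y ((hA n y).1 hy).2).1
      · rw [mem_img' inferInstance] at hz hz'
        obtain ⟨y, hy, rfl⟩ := hz
        obtain ⟨y', hy', rfl⟩ := hz'
        rintro ⟨r, hr, h6, h7⟩
        have h8 := hR y y' n _ _ r hn (hq n y ((hA n y).1 hy).2) (hq n y' ((hA n y').1 hy').2)
          hr h6 h7
        rw [h8] at hne
        exact hne rfl
    refine hC.inj (fun y => q n y) inferInstance h5 (fun z hz => ?_) (fun z z' hz hz' h6 => ?_)
    · rw [mem_img' inferInstance]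
      exact ⟨z, hz, rfl⟩
    · have h7 := hq n z ((hA n z).1 hz).2
      have h8 := hq n z' ((hA n z').1 hz').2
      rw [← h6] at h8
      exact hR z z' n _ _ (q n z) hn h7 h8 h7.1 (Sub.refl _) (Sub.refl _)
  refine ⟨sUn (img om A), hC.iUn A hAdf hC.om hAc, fun z hz => ?_⟩
  obtain ⟨y, hy, rfl⟩ := he.trans _ _ (haX z hz)
  obtain ⟨n, hn, hyn⟩ := hg1 _ hz
  rw [← ht.om] at hn
  obtain ⟨n, hn, rfl⟩ := he.trans _ _ hn
  rw [he.mem, mem_sUn]
  refine ⟨A n, ?_, ?_⟩
  · rw [mem_img' hAdf]
    exact ⟨n, (he.mem _ _).1 hn, rfl⟩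
  · rw [hA]
    obtain ⟨q', hq'G, hq'⟩ := FP.truth hG hs (pairIn_iff.2 ((hf _ _).2 ⟨hyn, hz⟩))
    obtain ⟨r, hrG, hrq, hrp⟩ := hG.dir q' p hq'G hpG
    exact ⟨hy, r, hG.sub r hrG, hrp, hq'.mono (hG.sub q' hq'G) hrq⟩

end SW
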